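import Pool.Agent.K4H53.DP.Data

/-!
# Complex conjugation and the algebraic part
-/

set_option autoImplicit false
set_option linter.all false

open Filter Topology MeasureTheory Set UpperHalfPlane MatrixGroups CongruenceSubgroup Finset
open ZMod

namespace Pool.Agent.K4H53.DP

open Pool.Agent.Y18.BSD (co bv)
open Pool.Agent.Y702.G (IsForm pts cubic kapG)

lemma conj_gauss {q : ℕ} [NeZero q] (χ : DirichletCharacter ℂ q) :
    (starRingEnd ℂ) (gaussSum χ (stdAddChar (N := q))) =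
      χ⁻¹ (-1) * gaussSum χ⁻¹ (stdAddChar (N := q)) := by
  unfold gaussSum
  rw [map_sum, Finset.mul_sum, ← Equiv.sum_comp (Equiv.neg (ZMod q))
    (fun a => χ⁻¹ (-1) * (χ⁻¹ a * stdAddChar a))]
  refine Finset.sum_congr rfl fun a _ => ?_
  have h1 : (starRingEnd ℂ) (χ a) = χ⁻¹ a := MulChar.star_apply' χ a
  have h2 : (starRingEnd ℂ) (stdAddChar a) = stdAddChar (-a) := (AddChar.map_neg_eq_conj _ a).symm
  have h3 : (starRingEnd ℂ) (χ a * stdAddChar a) = χ⁻¹ a * stdAddChar (-a) := by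
    rw [← h1, ← h2]
    exact map_mul _ _ _
  have h4 : χ⁻¹ a = χ⁻¹ (-1) * χ⁻¹ (-a) := by
    rw [← map_mul]
    congr 1
    ring
  rw [h3, Equiv.neg_apply, h4]
  ring

lemma per_conj (W : WeierstrassCurve ℤ) {q : ℕ} (χ : DirichletCharacter ℂ q) :
    (starRingEnd ℂ) (per W χ) = χ (-1) * per W χ := by
  unfold per
  rcases χ.even_or_odd with h | h
  · have h' : χ (-1) = 1 := h
    rw [if_pos h', h', Complex.conj_ofReal, one_mul]
  · have h' : χ (-1) = -1 := h
    have hne : ¬ χ (-1) = 1 := by rw [h']; norm_num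
    rw [if_neg hne, h', map_mul, map_div₀, Complex.conj_I, Complex.conj_ofReal, Complex.conj_ofReal]
    ring

/-- the relation for the algebraic part -/
theorem alg_conj {W : WeierstrassCurve ℤ} {N : ℕ} {q : ℕ} [NeZero q] {χ : DirichletCharacter ℂ q}
    (hχ : χ.IsPrimitive) (hco : Nat.Coprime q N) {z A w : ℂ} (hw : w = 1 ∨ w = -1)
    (hz : z = w * χ (-(N : ZMod q)) * gaussSum χ (stdAddChar (N := q)) /
        gaussSum χ⁻¹ (stdAddChar (N := q)) * (starRingEnd ℂ) z)
    (hA : gaussSum χ⁻¹ (stdAddChar (N := q)) * z = A * per W χ) (hper : per W χ ≠ 0) :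
    A = w * χ (-1) * χ (N : ZMod q) * (starRingEnd ℂ) A := by
  have hg := Pool.Agent.W440.TW.gauss_ne_zero χ hχ
  have hgi := Pool.Agent.W440.TW.gauss_ne_zero χ⁻¹ (Pool.Agent.W440.TW.inv_primitive χ hχ)
  have hA' := congrArg (starRingEnd ℂ) hA
  rw [map_mul, map_mul, conj_gauss, per_conj, inv_inv] at hA'
  have hm : χ (-1) * χ (-1) = 1 := by
    rw [← map_mul]; simp
  have hNm : χ (-(N : ZMod q)) = χ (-1) * χ (N : ZMod q) := by
    rw [← map_mul, neg_one_mul]
  -- `χ (-1) ≠ 0`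
  have hm0 : χ (-1) ≠ 0 := fun h => by rw [h, mul_zero] at hm; exact zero_ne_one hm
  have h1 : gaussSum χ (stdAddChar (N := q)) * (starRingEnd ℂ) z = (starRingEnd ℂ) A * per W χ := by
    apply mul_left_cancel₀ hm0
    linear_combination hA'
  apply mul_right_cancel₀ hper
  rw [← hA]
  have h2 : gaussSum χ⁻¹ (stdAddChar (N := q)) * z =
      w * χ (-(N : ZMod q)) * (gaussSum χ (stdAddChar (N := q)) * (starRingEnd ℂ) z) := by
    conv_lhs => rw [hz]
    field_simp
  rw [h2, h1, hNm]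
  ring

end Pool.Agent.K4H53.DP
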