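import Pool.Agent.K4H53.BSR.Prod4

/-!
# The conductor of a character of 2-power order
-/

set_option autoImplicit false
set_option linter.all false

open Finset

namespace Pool.Agent.K4H53.DP

lemma pow_eq_one_of {q d l : ℕ} [NeZero q] (hq : q = d * l) (hld : l ∣ d) (u : (ZMod q)ˣ)
    (hu : ((u : ZMod q).val : ℤ) ≡ 1 [ZMOD d]) : u ^ l = 1 := by
  set a : ℤ := ((u : ZMod q).val : ℤ) with ha
  have h1 : (d : ℤ) ∣ a - 1 := hu.symm.dvd
  have h2 : (l : ℤ) ∣ ∑ i ∈ range l, a ^ i := by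
    have h3 : (l : ℤ) ∣ a - 1 := (by exact_mod_cast hld : (l : ℤ) ∣ d).trans h1
    have h4 : a ≡ 1 [ZMOD l] := (Int.modEq_iff_dvd.2 h3).symm
    have h5 : ∑ i ∈ range l, a ^ i ≡ ∑ i ∈ range l, 1 [ZMOD l] := by
      rw [Int.modEq_iff_dvd, ← Finset.sum_sub_distrib]
      refine Finset.dvd_sum fun i _ => ?_
      have h6 := h4.pow i
      rw [one_pow] at h6
      exact h6.dvd
    have h6 : (l : ℤ) ∣ (∑ i ∈ range l, (1 : ℤ)) := by simp
    exact (Int.ModEq.dvd_iff h5).2 h6
  have h3 : (q : ℤ) ∣ a ^ l - 1 := by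
    rw [← mul_geom_sum, hq]
    push_cast
    exact mul_dvd_mul h1 h2
  apply Units.ext
  rw [Units.val_pow_eq_pow_val, Units.val_one]
  have h4 : ((a ^ l - 1 : ℤ) : ZMod q) = 0 := (ZMod.intCast_zmod_eq_zero_iff_dvd _ _).2 h3
  have h5 : ((a : ℤ) : ZMod q) = (u : ZMod q) := by
    rw [ha]
    push_cast
    exact ZMod.natCast_zmod_val _
  push_cast at h4
  rw [h5] at h4
  exact sub_eq_zero.1 h4

/-- the conductor of a character of 2-power order -/
theorem cond_two {q : ℕ} [NeZero q] (χ : DirichletCharacter ℂ q) (hχ : χ.IsPrimitive) {r : ℕ}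
    (hr : χ ^ (2 ^ r) = 1) :
    ∃ j q' : ℕ, q = 2 ^ j * q' ∧ j ≠ 1 ∧ Odd q' ∧ Squarefree q' := by
  have hcond : χ.conductor = q := hχ
  obtain ⟨j, q', hodd, hq⟩ := Nat.exists_eq_two_pow_mul_odd (NeZero.ne q)
  refine ⟨j, q', hq, ?_, hodd, ?_⟩
  · rintro rfl
    have h1 := Pool.Agent.K4H53.BSR.cond_mod4 χ
    rw [hcond] at h1
    obtain ⟨t, ht⟩ := hodd
    omega
  · rw [Nat.squarefree_iff_prime_squarefree]
    intro l hl hll
    have hlodd : Odd l := by
      obtain ⟨t, ht⟩ := hll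
      rw [ht] at hodd
      exact (Nat.odd_mul.1 (Nat.odd_mul.1 hodd).1).1
    obtain ⟨d, hd⟩ : l ∣ q := by
      rw [hq]
      exact ((dvd_mul_right l l).trans hll).mul_left _
    have hq' : q = d * l := by rw [hd, mul_comm]
    have hld : l ∣ d := by
      have h1 : l * l ∣ l * d := by
        rw [← hd, hq]
        exact hll.mul_left _
      exact (Nat.mul_dvd_mul_iff_left hl.pos).1 h1
    have hdq : d ∣ q := ⟨l, hq'⟩
    have hd0 : d ≠ 0 := by
      rintro rfl
      rw [zero_mul] at hq'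
      exact NeZero.ne q hq'
    haveI : NeZero d := ⟨hd0⟩
    have hf : DirichletCharacter.FactorsThrough χ d := by
      rw [DirichletCharacter.factorsThrough_iff_ker_unitsMap hdq]
      intro u hu
      rw [MonoidHom.mem_ker] at hu
      have h1 : u ^ l = 1 := by
        refine pow_eq_one_of hq' hld u ?_
        have h2 : (((u : ZMod q).val : ℤ) : ZMod d) = ((1 : ℤ) : ZMod d) := by
          have h3 := congrArg (fun x : (ZMod d)ˣ => (x : ZMod d)) hu
          simp only [Units.val_one] at h3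
          rw [ZMod.unitsMap_val] at h3
          push_cast
          rw [← h3]
          exact ZMod.natCast_val _
        exact (ZMod.intCast_eq_intCast_iff _ _ _).1 h2
      have h4 : (χ (u : ZMod q)) ^ l = 1 := by
        rw [← map_pow, ← Units.val_pow_eq_pow_val, h1, Units.val_one, map_one]
      have h5 : (χ (u : ZMod q)) ^ (2 ^ r) = 1 := by
        rw [← MulChar.pow_apply_coe, hr, MulChar.one_apply_coe]
      have h6 : Nat.Coprime l (2 ^ r) := (Nat.coprime_two_right.2 hlodd).pow_right r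
      have h7 : χ (u : ZMod q) = 1 := by
        have h8 : orderOf (χ (u : ZMod q)) ∣ Nat.gcd l (2 ^ r) :=
          Nat.dvd_gcd (orderOf_dvd_of_pow_eq_one h4) (orderOf_dvd_of_pow_eq_one h5)
        rw [h6] at h8
        exact orderOf_eq_one_iff.1 (Nat.dvd_one.1 h8)
      rw [MonoidHom.mem_ker]
      apply Units.ext
      rw [MulChar.coe_toUnitHom, h7, Units.val_one]
    have h1 : χ.conductor ≤ d := Nat.sInf_le hf
    rw [hcond, hq'] at h1
    have h2 := hl.two_le
    have h3 := Nat.pos_of_ne_zero hd0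
    nlinarith

end Pool.Agent.K4H53.DP
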