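import Mathlib

/-!
# Complex conjugation on the subfields of cyclotomic fields
-/

set_option autoImplicit false
set_option linter.all false

open IntermediateField

namespace Pool.Agent.K4H53.DP

lemma normal_sub {K C : Type} [Field K] [Field C] [Algebra K C] [IsAbelianGalois K C]
    (E : IntermediateField K C) : Normal K E := by
  haveI h0 : IsAbelianGalois K E := inferInstance
  haveI h00 : IsGalois K E := h0.toIsGalois
  exact IsGalois.to_normal

lemma conj_mem' {K C M : Type} [Field K] [Field C] [Algebra K C] [IsAbelianGalois K C]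
    [Field M] [Algebra K M] (φ : C →ₐ[K] M) (c : M →ₐ[K] M) (y : C) :
    c (φ y) ∈ IntermediateField.adjoin K {φ y} := by
  set E' : IntermediateField K C := IntermediateField.adjoin K {y} with hE'
  have hE : E'.map φ = IntermediateField.adjoin K {φ y} := by
    rw [hE', IntermediateField.adjoin_map, Set.image_singleton]
  haveI hn : Normal K E' := normal_sub E'
  haveI : Normal K (E'.map φ) := Normal.of_algEquiv (E'.equivMap φ)
  have h1 := AlgHom.fieldRange_of_normal (c.comp (E'.map φ).val)
  have hxE : φ y ∈ E'.map φ := by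
    rw [hE]
    exact IntermediateField.mem_adjoin_simple_self K _
  have h2 : c (φ y) ∈ (c.comp (E'.map φ).val).fieldRange := ⟨⟨φ y, hxE⟩, rfl⟩
  rw [h1, hE] at h2
  exact h2

theorem conj_mem {S : Set ℂ} (n : ℕ) [NeZero n] (hS : ∀ s ∈ S, s = 0 ∨ s ^ n = 1) {x : ℂ}
    (hx : x ∈ IntermediateField.adjoin ℚ S) :
    (starRingEnd ℂ) x ∈ IntermediateField.adjoin ℚ {x} := by
  haveI : NeZero ((n : ℕ) : ℚ) := ⟨by exact_mod_cast NeZero.ne n⟩
  haveI hcyc : IsCyclotomicExtension {n} ℚ (CyclotomicField n ℚ) :=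
    CyclotomicField.isCyclotomicExtension n ℚ
  haveI : NumberField (CyclotomicField n ℚ) := IsCyclotomicExtension.numberField {n} ℚ _
  haveI : IsAbelianGalois ℚ (CyclotomicField n ℚ) := IsCyclotomicExtension.isAbelianGalois {n} ℚ _
  let φ : CyclotomicField n ℚ →ₐ[ℚ] ℂ := IsAlgClosed.lift
  have hζ := IsCyclotomicExtension.zeta_spec n ℚ (CyclotomicField n ℚ)
  have hζ' : IsPrimitiveRoot (φ (IsCyclotomicExtension.zeta n ℚ (CyclotomicField n ℚ))) n :=
    hζ.map_of_injective φ.injective
  have hle : IntermediateField.adjoin ℚ S ≤ φ.fieldRange := by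
    rw [IntermediateField.adjoin_le_iff]
    intro s hs
    rcases hS s hs with h | h
    · rw [h]
      exact zero_mem _
    · obtain ⟨i, -, hi⟩ := hζ'.eq_pow_of_pow_eq_one h
      rw [← hi]
      exact pow_mem (⟨_, rfl⟩ : φ _ ∈ φ.fieldRange) i
  obtain ⟨y, hy⟩ := hle hx
  have hy' : φ y = x := hy
  let c : ℂ →ₐ[ℚ] ℂ := RingHom.toRatAlgHom (starRingEnd ℂ)
  have h := conj_mem' φ c y
  rw [hy'] at h
  exact h

end Pool.Agent.K4H53.DP
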