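import Pool.Agent.K4H15.GM.Form
import Pool.Agent.Y702.G.Main

/-!
# The functional equation at the central point
-/

set_option autoImplicit false
set_option linter.all false

open Filter Topology MeasureTheory Set UpperHalfPlane MatrixGroups CongruenceSubgroup Finset
open ZMod

namespace Pool.Agent.K4H53.DP

open Pool.Agent.Y18.BSD (co bv PG Cf tm lf exists_L)
open Pool.Agent.Y702.G (IsForm pts)

variable {W : WeierstrassCurve ℤ} {N : ℕ} [NeZero N]
  {f : CuspForm (Gamma0 N : Subgroup (GL (Fin 2) ℝ)) 2}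

theorem exists_twist (hf : IsForm W N f) {q : ℕ} [NeZero q] (χ : DirichletCharacter ℂ q)
    (hχ : χ.IsPrimitive) (hco : Nat.Coprime q N) :
    ∃ (w : ℂ) (L : ℂ → ℂ), (w = 1 ∨ w = -1) ∧ Differentiable ℂ L ∧
      (∀ s : ℂ, 3 / 2 < s.re →
        HasSum (fun n : ℕ => χ (n : ZMod q) * co f n * (n : ℂ) ^ (-s)) (L s)) ∧
      gaussSum χ⁻¹ (stdAddChar (N := q)) * L 1 =
        ∑ u : (ZMod q)ˣ, χ⁻¹ (u : ZMod q) * bv f (((u : ZMod q).val : ℚ) / q) ∧
      L 1 = w * χ (-(N : ZMod q)) * gaussSum χ (stdAddChar (N := q)) /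
        gaussSum χ⁻¹ (stdAddChar (N := q)) * (starRingEnd ℂ) (L 1) := by
  obtain ⟨ε, hnf, hfr⟩ := hf.newf
  obtain ⟨L, hL1, hL2, hL3⟩ := exists_L hnf hfr hf.cf q χ hχ hco
  have hsum : ∀ s : ℂ, 3 / 2 < s.re →
      HasSum (fun n : ℕ => χ (n : ZMod q) * co f n * (n : ℂ) ^ (-s)) (L s) := by
    intro s hs
    rw [hL2 s hs]
    exact (hf.cf.summable χ hs).of_norm.hasSum
  obtain ⟨L', ⟨hd', hs'⟩, -, hval, hfe⟩ := Pool.Agent.K4H15.GM.exists_L (m := 1) (N := N) (f := f)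
    (ε := ε) le_rfl hnf hχ hco
  have hLL : L' = L := by
    refine Pool.Agent.K4H15.GM.entire_eq' hd' hL1 2 fun s hs => ?_
    have h1 := hs' s (by push_cast; linarith)
    exact h1.unique (hsum s (by linarith))
  rw [hLL] at hval
  have h1 := hval 1 le_rfl
  have h2 := hfe 1 le_rfl (by norm_num)
  have e1 : 2 * 1 - 1 = 1 := rfl
  rw [e1, h1] at h2
  have hpi : ((2 * Real.pi : ℝ) : ℂ) ≠ 0 := by
    have := Real.pi_pos
    exact Complex.ofReal_ne_zero.2 (by positivity)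
  refine ⟨(ε : ℂ), L, ?_, hL1, hsum, hL3, ?_⟩
  · rcases hnf.sign with h | h <;> simp [h]
  · rw [map_mul, map_div₀, map_pow, Complex.conj_ofReal] at h2
    simp only [Nat.cast_one, Complex.Gamma_one, pow_one, sub_self, zpow_zero, map_one, mul_one,
      Pool.Agent.K4H15.GM.rn] at h2
    field_simp at h2 ⊢
    linear_combination h2

end Pool.Agent.K4H53.DP
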