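import Pool.Agent.R425.Un

/-!
# Units at two in the rings of the values of characters of 2-power order
-/

set_option autoImplicit false
set_option linter.all false

open Finset

namespace Pool.Agent.K4H53.DP

/-- `D x` is in `ℤ[S]` for an odd number `D` -/
def TwoInt (S : Set ℂ) (x : ℂ) : Prop :=
  ∃ D : ℤ, Odd D ∧ (D : ℂ) * x ∈ Algebra.adjoin ℤ S

/-- `x` is a unit of the ring of the elements `y / D`, `y` in `ℤ[S]`, `D` odd -/
def TwoUnit (S : Set ℂ) (x : ℂ) : Prop := x ≠ 0 ∧ TwoInt S x ∧ TwoInt S x⁻¹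

/-- the values of a character -/
def vals {q : ℕ} (χ : DirichletCharacter ℂ q) : Set ℂ := Set.range fun a : ZMod q => χ a

lemma TwoInt.mono {S T : Set ℂ} (h : S ⊆ T) {x : ℂ} (hx : TwoInt S x) : TwoInt T x := by
  obtain ⟨D, hD, hx⟩ := hx
  exact ⟨D, hD, Algebra.adjoin_mono h hx⟩

lemma TwoUnit.mono {S T : Set ℂ} (h : S ⊆ T) {x : ℂ} (hx : TwoUnit S x) : TwoUnit T x :=
  ⟨hx.1, hx.2.1.mono h, hx.2.2.mono h⟩

lemma TwoInt.mul {S : Set ℂ} {x y : ℂ} (hx : TwoInt S x) (hy : TwoInt S y) : TwoInt S (x * y) := by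
  obtain ⟨D, hD, hx⟩ := hx
  obtain ⟨E, hE, hy⟩ := hy
  refine ⟨D * E, hD.mul hE, ?_⟩
  have h := mul_mem hx hy
  have e : (((D * E : ℤ)) : ℂ) * (x * y) = (D * x) * (E * y) := by push_cast; ring
  rw [e]
  exact h

lemma TwoUnit.one (S : Set ℂ) : TwoUnit S 1 := by
  have h : TwoInt S 1 := ⟨1, odd_one, by
    rw [Int.cast_one, one_mul]
    exact one_mem _⟩
  exact ⟨one_ne_zero, h, by rw [inv_one]; exact h⟩

lemma TwoUnit.mul {S : Set ℂ} {x y : ℂ} (hx : TwoUnit S x) (hy : TwoUnit S y) :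
    TwoUnit S (x * y) :=
  ⟨mul_ne_zero hx.1 hy.1, hx.2.1.mul hy.2.1, by
    rw [mul_inv]
    exact hx.2.2.mul hy.2.2⟩

lemma TwoUnit.inv {S : Set ℂ} {x : ℂ} (hx : TwoUnit S x) : TwoUnit S x⁻¹ :=
  ⟨inv_ne_zero hx.1, hx.2.2, by rw [inv_inv]; exact hx.2.1⟩

lemma TwoUnit.pow {S : Set ℂ} {x : ℂ} (hx : TwoUnit S x) (n : ℕ) : TwoUnit S (x ^ n) := by
  induction n with
  | zero => rw [pow_zero]; exact TwoUnit.one S
  | succ n ih => rw [pow_succ]; exact ih.mul hx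

lemma TwoUnit.zpow {S : Set ℂ} {x : ℂ} (hx : TwoUnit S x) (n : ℤ) : TwoUnit S (x ^ n) := by
  cases n with
  | ofNat n => rw [Int.ofNat_eq_natCast, zpow_natCast]; exact hx.pow n
  | negSucc n => rw [zpow_negSucc]; exact (hx.pow _).inv

lemma TwoUnit.prod {S : Set ℂ} {ι : Type*} (s : Finset ι) (x : ι → ℂ) (h : ∀ i ∈ s, TwoUnit S (x i)) :
    TwoUnit S (∏ i ∈ s, x i) :=
  Finset.prod_induction _ (TwoUnit S) (fun _ _ => TwoUnit.mul) (TwoUnit.one S) h

/-- the elements of the ring of the values -/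
lemma mem_adjoin {q : ℕ} [NeZero q] (χ : DirichletCharacter ℂ q) {w : ℂ}
    (hw : w ∈ Algebra.adjoin ℤ (vals χ)) :
    ∃ c : (ZMod q)ˣ → ℤ, w = ∑ u : (ZMod q)ˣ, χ (u : ZMod q) * (c u : ℂ) := by
  classical
  induction hw using Algebra.adjoin_induction with
  | mem x hx =>
    obtain ⟨a, rfl⟩ := hx
    by_cases ha : IsUnit a
    · obtain ⟨u, rfl⟩ := ha
      refine ⟨fun v => if v = u then 1 else 0, ?_⟩
      simp
    · refine ⟨fun _ => 0, ?_⟩
      have h : χ a = 0 := MulChar.map_nonunit χ ha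
      simp [h]
  | algebraMap r =>
    refine ⟨fun v => if v = 1 then r else 0, ?_⟩
    simp
  | add x y _ _ hx hy =>
    obtain ⟨c, rfl⟩ := hx
    obtain ⟨d, rfl⟩ := hy
    refine ⟨fun v => c v + d v, ?_⟩
    rw [← Finset.sum_add_distrib]
    refine Finset.sum_congr rfl fun u _ => ?_
    push_cast
    ring
  | mul x y _ _ hx hy =>
    obtain ⟨c, rfl⟩ := hx
    obtain ⟨d, rfl⟩ := hy
    refine ⟨fun w => ∑ u : (ZMod q)ˣ, c u * d (u⁻¹ * w), ?_⟩
    rw [Finset.sum_mul_sum]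
    have h1 : ∀ u : (ZMod q)ˣ, ∑ v : (ZMod q)ˣ, χ (u : ZMod q) * (c u : ℂ) *
        (χ (v : ZMod q) * (d v : ℂ)) = ∑ w : (ZMod q)ˣ, χ (w : ZMod q) * ((c u * d (u⁻¹ * w) : ℤ) : ℂ) := by
      intro u
      refine Eq.trans ?_ (Equiv.sum_comp (Equiv.mulLeft u) (fun w : (ZMod q)ˣ =>
        χ (w : ZMod q) * ((c u * d (u⁻¹ * w) : ℤ) : ℂ)))
      refine Finset.sum_congr rfl fun v _ => ?_
      rw [Equiv.coe_mulLeft]
      show _ = χ ((u * v : (ZMod q)ˣ) : ZMod q) * ((c u * d (u⁻¹ * (u * v)) : ℤ) : ℂ)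
      rw [inv_mul_cancel_left, Units.val_mul, map_mul]
      push_cast
      ring
    rw [Finset.sum_congr rfl fun u _ => h1 u, Finset.sum_comm]
    refine Finset.sum_congr rfl fun w _ => ?_
    rw [← Finset.mul_sum]
    push_cast
    rfl

lemma conv_mul {q : ℕ} [NeZero q] (χ : DirichletCharacter ℂ q) (c d : (ZMod q)ˣ → ℤ) :
    ∃ e : (ZMod q)ˣ → ℤ, (∑ u : (ZMod q)ˣ, χ (u : ZMod q) * (c u : ℂ)) *
      (∑ u : (ZMod q)ˣ, χ (u : ZMod q) * (d u : ℂ)) = ∑ u : (ZMod q)ˣ, χ (u : ZMod q) * (e u : ℂ) ∧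
      ∑ u, e u = (∑ u, c u) * ∑ u, d u := by
  classical
  refine ⟨fun w => ∑ u : (ZMod q)ˣ, c u * d (u⁻¹ * w), ?_, ?_⟩
  · rw [Finset.sum_mul_sum]
    have h1 : ∀ u : (ZMod q)ˣ, ∑ v : (ZMod q)ˣ, χ (u : ZMod q) * (c u : ℂ) *
        (χ (v : ZMod q) * (d v : ℂ)) = ∑ w : (ZMod q)ˣ, χ (w : ZMod q) * ((c u * d (u⁻¹ * w) : ℤ) : ℂ) := by
      intro u
      refine Eq.trans ?_ (Equiv.sum_comp (Equiv.mulLeft u) (fun w : (ZMod q)ˣ =>
        χ (w : ZMod q) * ((c u * d (u⁻¹ * w) : ℤ) : ℂ)))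
      refine Finset.sum_congr rfl fun v _ => ?_
      rw [Equiv.coe_mulLeft]
      show _ = χ ((u * v : (ZMod q)ˣ) : ZMod q) * ((c u * d (u⁻¹ * (u * v)) : ℤ) : ℂ)
      rw [inv_mul_cancel_left, Units.val_mul, map_mul]
      push_cast
      ring
    rw [Finset.sum_congr rfl fun u _ => h1 u, Finset.sum_comm]
    refine Finset.sum_congr rfl fun w _ => ?_
    rw [← Finset.mul_sum]
    push_cast
    rfl
  · rw [Finset.sum_mul_sum, Finset.sum_comm]
    refine Finset.sum_congr rfl fun u _ => ?_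
    refine (Equiv.sum_comp (Equiv.mulLeft u) (fun w : (ZMod q)ˣ => c u * d (u⁻¹ * w))).symm.trans ?_
    refine Finset.sum_congr rfl fun v _ => ?_
    rw [Equiv.coe_mulLeft]
    show c u * d (u⁻¹ * (u * v)) = _
    rw [inv_mul_cancel_left]

/-- the norm of an element of `ℤ[χ]` -/
theorem norm_two {q : ℕ} [NeZero q] (χ : DirichletCharacter ℂ q) {r : ℕ}
    (hr : χ ^ (2 ^ r) = 1) (c : (ZMod q)ˣ → ℤ) :
    ∃ (M : ℤ) (z : ℂ), z ∈ Algebra.adjoin ℤ (vals χ) ∧ (Odd M ↔ Odd (∑ u, c u)) ∧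
      (∑ u : (ZMod q)ˣ, χ (u : ZMod q) * (c u : ℂ)) * z = M := by
  classical
  set Y : Subgroup (DirichletCharacter ℂ q) := Subgroup.zpowers χ with hY
  obtain ⟨k, -, hk⟩ := (Nat.dvd_prime_pow Nat.prime_two).1 (orderOf_dvd_of_pow_eq_one hr)
  have hcard : Nat.card Y = 2 ^ k := by rw [hY, Nat.card_zpowers, hk]
  have : Finite Y := Nat.finite_of_card_ne_zero (by rw [hcard]; positivity)
  have : Fintype Y := Fintype.ofFinite Y
  set cw : DirichletCharacter ℂ q → (ZMod q)ˣ → ℤ := fun ψ u =>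
    if orderOf ψ = orderOf χ then c u else (if u = 1 then 1 else 0) with hcw
  have hcw1 : ∀ ψ ∈ Y, ∀ a : ℕ, Odd a → ∀ u, cw (ψ ^ a) u = cw ψ u := by
    intro ψ hψ a ha u
    have h1 : orderOf (ψ ^ a) = orderOf ψ := by
      have h2 : orderOf ψ ∣ 2 ^ k := by
        have h3 : ψ ^ (2 ^ k) = 1 := by
          have h4 : (⟨ψ, hψ⟩ : Y) ^ Nat.card Y = 1 := pow_card_eq_one'
          rw [hcard] at h4
          exact congrArg Subtype.val h4
        exact orderOf_dvd_of_pow_eq_one h3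
      have h3 : Nat.Coprime (orderOf ψ) a :=
        Nat.Coprime.coprime_dvd_left h2 ((Nat.coprime_two_left.2 ha).pow_left k)
      exact Nat.Coprime.orderOf_pow h3
    simp only [hcw, h1]
  obtain ⟨M, hM, hprod⟩ := Pool.Agent.R425.unit_iff q Y k hcard cw hcw1
  have hmem : ∀ (ψ : Y) (d : (ZMod q)ˣ → ℤ), ∑ u : (ZMod q)ˣ, (ψ : DirichletCharacter ℂ q) (u : ZMod q) *
      (d u : ℂ) ∈ Algebra.adjoin ℤ (vals χ) := by
    intro ψ d
    refine Subalgebra.sum_mem _ fun u _ => mul_mem ?_ (intCast_mem _ _)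
    obtain ⟨ψ, hψ⟩ := ψ
    obtain ⟨m, hm⟩ := (Submonoid.mem_powers_iff _ _).1 ((mem_powers_iff_mem_zpowers).2 hψ)
    show ψ (u : ZMod q) ∈ _
    rw [← hm, MulChar.pow_apply_coe]
    have h : χ (u : ZMod q) ∈ Algebra.adjoin ℤ (vals χ) := Algebra.subset_adjoin ⟨_, rfl⟩
    exact pow_mem h m
  have hχY : χ ∈ Y := Subgroup.mem_zpowers χ
  refine ⟨M, ∏ ψ ∈ Finset.univ.erase (⟨χ, hχY⟩ : Y), ∑ u : (ZMod q)ˣ,
    (ψ : DirichletCharacter ℂ q) (u : ZMod q) * (cw ψ u : ℂ), ?_, ?_, ?_⟩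
  · exact Subalgebra.prod_mem _ fun ψ _ => hmem ψ _
  · rw [hM]
    constructor
    · intro h
      have h1 := h χ hχY
      simp only [hcw, if_true] at h1
      exact h1
    · intro h ψ hψ
      by_cases h1 : orderOf ψ = orderOf χ
      · simp only [hcw, if_pos h1]
        exact h
      · simp only [hcw, if_neg h1]
        simp
  · rw [finprod_eq_prod_of_fintype, ← Finset.mul_prod_erase _ _ (Finset.mem_univ (⟨χ, hχY⟩ : Y))] at hprod
    rw [← hprod]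
    congr 1
    refine Finset.sum_congr rfl fun u _ => ?_
    simp only [hcw, if_true]

/-- the criterion -/
theorem unit_crit {q : ℕ} [NeZero q] (χ : DirichletCharacter ℂ q) {r : ℕ}
    (hr : χ ^ (2 ^ r) = 1) (c : (ZMod q)ˣ → ℤ) {D : ℤ} (hD : Odd D) {A : ℂ}
    (hA : (D : ℂ) * A = ∑ u : (ZMod q)ˣ, χ (u : ZMod q) * (c u : ℂ)) :
    TwoInt (vals χ) A ∧ (TwoUnit (vals χ) A ↔ Odd (∑ u, c u)) := by
  classical
  have hI : TwoInt (vals χ) A := by
    refine ⟨D, hD, ?_⟩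
    rw [hA]
    exact Subalgebra.sum_mem _ fun u _ => mul_mem (Algebra.subset_adjoin ⟨_, rfl⟩) (intCast_mem _ _)
  refine ⟨hI, ?_⟩
  have hD0 : (D : ℂ) ≠ 0 := by
    have : D ≠ 0 := by rintro rfl; exact absurd hD (by decide)
    exact_mod_cast this
  constructor
  · rintro ⟨h0, -, E, hE, hw⟩
    obtain ⟨d, hd⟩ := mem_adjoin χ hw
    obtain ⟨e, he, hes⟩ := conv_mul χ c d
    rw [← hA, ← hd] at he
    have h1 : (D : ℂ) * A * (E * A⁻¹) = ((D * E : ℤ) : ℂ) := by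
      push_cast
      field_simp
    rw [h1] at he
    obtain ⟨M, z, hz, hMo, hMz⟩ := norm_two χ hr (fun u => (if u = 1 then D * E else 0) - e u)
    have h2 : ∑ u : (ZMod q)ˣ, χ (u : ZMod q) * (((if u = 1 then D * E else 0) - e u : ℤ) : ℂ) = 0 := by
      have h3 : ∀ u : (ZMod q)ˣ, χ (u : ZMod q) * (((if u = 1 then D * E else 0) - e u : ℤ) : ℂ) =
          χ (u : ZMod q) * ((if u = 1 then D * E else 0 : ℤ) : ℂ) - χ (u : ZMod q) * (e u : ℂ) := by
        intro u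
        push_cast
        ring
      rw [Finset.sum_congr rfl fun u _ => h3 u, Finset.sum_sub_distrib, ← he]
      simp
    rw [h2, zero_mul] at hMz
    have hM0 : M = 0 := by exact_mod_cast hMz.symm
    rw [hM0] at hMo
    have h4 : ¬ Odd (∑ u : (ZMod q)ˣ, ((if u = 1 then D * E else 0) - e u)) := by
      rw [← hMo]
      decide
    rw [Finset.sum_sub_distrib, hes] at h4
    simp only [Finset.sum_ite_eq', Finset.mem_univ, if_true] at h4
    rw [Int.not_odd_iff_even] at h4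
    have h5 : Odd (D * E) := hD.mul hE
    have h6 : Odd ((∑ u, c u) * ∑ u, d u) := by
      have h7 : (∑ u, c u) * ∑ u, d u = D * E - (D * E - (∑ u, c u) * ∑ u, d u) := by ring
      rw [h7]
      exact h5.sub_even h4
    exact (Int.odd_mul.1 h6).1
  · intro h
    obtain ⟨M, z, hz, hMo, hMz⟩ := norm_two χ hr c
    have hMo' : Odd M := hMo.2 h
    have hM0 : (M : ℂ) ≠ 0 := by
      have : M ≠ 0 := by rintro rfl; exact absurd hMo' (by decide)
      exact_mod_cast this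
    rw [← hA] at hMz
    have hA0 : A ≠ 0 := by
      rintro rfl
      rw [mul_zero, zero_mul] at hMz
      exact hM0 hMz.symm
    refine ⟨hA0, hI, M, hMo', ?_⟩
    have h1 : (M : ℂ) * A⁻¹ = D * z := by
      rw [← hMz]
      field_simp
    rw [h1]
    exact mul_mem (intCast_mem _ _) hz

end Pool.Agent.K4H53.DP
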