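import Pool.Agent.K4H53.DP.Val
import Pool.Agent.K4H53.DP.Cond
import Pool.Agent.K4H53.DP.Unit
import Pool.Agent.K4H53.DP.Feq
import Pool.Agent.K4H53.DP.Conj
import Pool.Agent.R425.P.Lt
import Pool.Agent.R425.P.Pr
import Pool.Agent.R425.P.Pc
import Pool.Agent.R425.G.An
import Pool.Agent.Y288.G.Perr
import Pool.Agent.Y288.G.Perc
import Pool.Agent.Y255.LT.Fin

/-!
# The algebraic part of the central value of a twist by a character of 2-power order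
-/

set_option autoImplicit false
set_option linter.all false

open Filter Topology MeasureTheory Set UpperHalfPlane MatrixGroups CongruenceSubgroup Finset
open ZMod

namespace Pool.Agent.K4H53.DP

open Pool.Agent.Y18.BSD (co bv)
open Pool.Agent.Y702.G (IsForm pts cubic kapG)
open Pool.Agent.Y702.L (RR)
open Pool.Agent.R425.G (PerA)
open Pool.Agent.R425.P (PerP)

/-- the real period -/
noncomputable def rP (W : WeierstrassCurve ℤ) : ℝ :=
  2 * ∫ x in {x : ℝ | 0 < cubic W x}, 1 / √(cubic W x)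

/-- the complex period -/
noncomputable def cP (W : WeierstrassCurve ℤ) : ℝ := 2 * (2 * ∫ x : ℂ, 1 / ‖cubic W x‖)

/-- the primitive -/
noncomputable def prm {N : ℕ} (f : CuspForm (Gamma0 N : Subgroup (GL (Fin 2) ℝ)) 2) (z : ℂ) : ℂ :=
  ∑' n : ℕ, co f n / n * Complex.exp (2 * Real.pi * Complex.I * n * z)

variable {W : WeierstrassCurve ℤ} {N : ℕ} [NeZero N]
  {f : CuspForm (Gamma0 N : Subgroup (GL (Fin 2) ℝ)) 2}

theorem data_neg (hΔ : W.Δ < 0) (hfI : IsForm W N f)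
    (Λ : PeriodPair) (hg₂ : Λ.g₂ = (W.c₄ : ℂ) / 12) (hg₃ : Λ.g₃ = (W.c₆ : ℂ) / 216)
    (hman : ∃ c : ℤ, Odd c ∧ ∀ γ ∈ Gamma0 N, ∀ z : ℍ,
      (c : ℂ) * (prm f ((γ • z : ℍ) : ℂ) - prm f (z : ℂ)) ∈ Λ.lattice)
    (q : ℕ) (hq : q.Prime) (hqΔ : ¬ (q : ℤ) ∣ 2 * W.Δ) (hqo : Odd ((q : ℤ) - pts W (ZMod q))) :
    ∃ (Op Om : ℝ) (c s t : ℤ), PerA f Op Om (Λ.lattice : Set ℂ) c s t ∧ rP W = 2 * Op ∧
      cP W = 4 * Op * Om ∧ ¬ q ∣ N ∧ q ≠ 2 := by
  obtain ⟨Op, Om, hOp, hOm, hlat⟩ := Pool.Agent.Y255.LT.s_lat Λ ((W.c₄ : ℝ) / 12)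
    ((W.c₆ : ℝ) / 216)
    (by rw [hg₂]; push_cast; rfl) (by rw [hg₃]; push_cast; rfl) (by
      have h1 : (1728 : ℝ) * W.Δ = (W.c₄ : ℝ) ^ 3 - (W.c₆ : ℝ) ^ 2 := by
        exact_mod_cast congrArg (fun x : ℤ => (x : ℝ)) W.c_relation
      have h2 : (W.Δ : ℝ) < 0 := by exact_mod_cast hΔ
      have h3 : ((W.c₄ : ℝ) / 12) ^ 3 - 27 * ((W.c₆ : ℝ) / 216) ^ 2 = (W.Δ : ℝ) := by
        linear_combination (-1 / 1728 : ℝ) * h1
      rw [h3]
      exact h2)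
  have hreal : rP W = 2 * Op := by
    unfold rP
    rw [Pool.Agent.Y288.G.s_perr W hΔ Λ Op Om hOp hOm hg₂ hg₃ hlat]
  have hcomp : cP W = 4 * Op * Om := by
    unfold cP
    rw [Pool.Agent.Y288.G.s_perc W hΔ Λ Op Om hOp hOm hg₂ hg₃ hlat]
    ring
  obtain ⟨cc, hcc, hman'⟩ := hman
  have hqN : ¬ q ∣ N := by
    intro h
    exact hqΔ (((hfI.level q hq).1 h).mul_left 2)
  have hq2 : q ≠ 2 := by
    rintro rfl
    exact hqΔ (Dvd.intro _ rfl)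
  obtain ⟨s, t, hPer⟩ := Pool.Agent.R425.G.exists_perA hOp hOm hlat hcc (f := f) (by
    rintro x ⟨γ, rfl⟩
    have h1 := Pool.Agent.Y18.BSD.per_spec f (Additive.toMul γ) UpperHalfPlane.I
    have h2 := hman' _ (Additive.toMul γ).2 UpperHalfPlane.I
    have h3 : prm f ((((Additive.toMul γ : Gamma0 N) : SL(2, ℤ)) • UpperHalfPlane.I : ℍ) : ℂ) -
        prm f (UpperHalfPlane.I : ℂ) = Pool.Agent.Y18.BSD.per f (Additive.toMul γ) := by
      have h4 : prm f ((((Additive.toMul γ : Gamma0 N) : SL(2, ℤ)) • UpperHalfPlane.I : ℍ) : ℂ) =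
          prm f (UpperHalfPlane.I : ℂ) + Pool.Agent.Y18.BSD.per f (Additive.toMul γ) := h1
      rw [h4]
      ring
    rw [h3] at h2
    exact h2) hfI hq hqN hq2 hqo
  exact ⟨Op, Om, cc, s, t, hPer, hreal, hcomp, hqN, hq2⟩

theorem data_pos (hΔ : 0 < W.Δ) (hfI : IsForm W N f)
    (Λ : PeriodPair) (hg₂ : Λ.g₂ = (W.c₄ : ℂ) / 12) (hg₃ : Λ.g₃ = (W.c₆ : ℂ) / 216)
    (hman : ∃ c : ℤ, Odd c ∧ ∀ γ ∈ Gamma0 N, ∀ z : ℍ,
      (c : ℂ) * (prm f ((γ • z : ℍ) : ℂ) - prm f (z : ℂ)) ∈ Λ.lattice)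
    (q : ℕ) (hq : q.Prime) (hqΔ : ¬ (q : ℤ) ∣ 2 * W.Δ) (hqo : Odd ((q : ℤ) - pts W (ZMod q))) :
    ∃ (Op Om : ℝ) (c s t : ℤ), PerP f Op Om (Λ.lattice : Set ℂ) c s t ∧ rP W = 2 * Op ∧
      cP W = 2 * Op * Om ∧ ¬ q ∣ N ∧ q ≠ 2 := by
  obtain ⟨Op, Om, hOp, hOm, hlat⟩ := Pool.Agent.R425.P.latP Λ ((W.c₄ : ℝ) / 12)
    ((W.c₆ : ℝ) / 216)
    (by rw [hg₂]; push_cast; rfl) (by rw [hg₃]; push_cast; rfl) (by
      have h1 : (1728 : ℝ) * W.Δ = (W.c₄ : ℝ) ^ 3 - (W.c₆ : ℝ) ^ 2 := by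
        exact_mod_cast congrArg (fun x : ℤ => (x : ℝ)) W.c_relation
      have h2 : 0 < (W.Δ : ℝ) := by exact_mod_cast hΔ
      have h3 : ((W.c₄ : ℝ) / 12) ^ 3 - 27 * ((W.c₆ : ℝ) / 216) ^ 2 = (W.Δ : ℝ) := by
        linear_combination (-1 / 1728 : ℝ) * h1
      rw [h3]
      exact h2)
  have hreal : rP W = 2 * Op := by
    unfold rP
    rw [Pool.Agent.R425.P.s_perrP W Λ Op Om hOp hOm hg₂ hg₃ hlat]
  have hcomp : cP W = 2 * Op * Om := by
    unfold cP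
    rw [Pool.Agent.R425.P.s_percP W Λ Op Om hOp hOm hg₂ hg₃ hlat]
    ring
  obtain ⟨cc, hcc, hman'⟩ := hman
  have hqN : ¬ q ∣ N := by
    intro h
    exact hqΔ (((hfI.level q hq).1 h).mul_left 2)
  have hq2 : q ≠ 2 := by
    rintro rfl
    exact hqΔ (Dvd.intro _ rfl)
  obtain ⟨s, t, hPer⟩ := Pool.Agent.R425.P.exists_perP hOp hOm hlat hcc (f := f) (by
    rintro x ⟨γ, rfl⟩
    have h1 := Pool.Agent.Y18.BSD.per_spec f (Additive.toMul γ) UpperHalfPlane.I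
    have h2 := hman' _ (Additive.toMul γ).2 UpperHalfPlane.I
    have h3 : prm f ((((Additive.toMul γ : Gamma0 N) : SL(2, ℤ)) • UpperHalfPlane.I : ℍ) : ℂ) -
        prm f (UpperHalfPlane.I : ℂ) = Pool.Agent.Y18.BSD.per f (Additive.toMul γ) := by
      have h4 : prm f ((((Additive.toMul γ : Gamma0 N) : SL(2, ℤ)) • UpperHalfPlane.I : ℍ) : ℂ) =
          prm f (UpperHalfPlane.I : ℂ) + Pool.Agent.Y18.BSD.per f (Additive.toMul γ) := h1
      rw [h4]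
      ring
    rw [h3] at h2
    exact h2) hfI hq hqN hq2 hqo
  exact ⟨Op, Om, cc, s, t, hPer, hreal, hcomp, hqN, hq2⟩

open Classical in
/-- the period of the twist -/
noncomputable def per (W : WeierstrassCurve ℤ) {q : ℕ} (χ : DirichletCharacter ℂ q) : ℂ :=
  if χ (-1) = 1 then (rP W : ℂ) else Complex.I * ((cP W : ℂ) / (rP W : ℂ))

/-- the criterion -/
def Cr (W : WeierstrassCurve ℤ) (q : ℕ) : Prop :=
  (∀ l : ℕ, l.Prime → l ∣ q → l ≠ 2 → Odd ((l : ℤ) - pts W (ZMod l))) ∧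
    (2 ∣ q → ¬ 8 ∣ q ∧ Even ((2 : ℤ) - pts W (ZMod 2)))

/-- the sums of the symbols as values of integral combinations -/
theorem main_sum (hΔ : W.Δ ≠ 0) (hfI : IsForm W N f)
    (Λ : PeriodPair) (hg₂ : Λ.g₂ = (W.c₄ : ℂ) / 12) (hg₃ : Λ.g₃ = (W.c₆ : ℂ) / 216)
    (hman : ∃ c : ℤ, Odd c ∧ ∀ γ ∈ Gamma0 N, ∀ z : ℍ,
      (c : ℂ) * (prm f ((γ • z : ℍ) : ℂ) - prm f (z : ℂ)) ∈ Λ.lattice)
    (l : ℕ) (hl : l.Prime) (hlΔ : ¬ (l : ℤ) ∣ 2 * W.Δ) (hlo : Odd ((l : ℤ) - pts W (ZMod l))) :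
    ∃ s t : ℤ, Odd t ∧ (t : ℂ) * bv f 0 = s * (rP W : ℂ) ∧ 0 < rP W ∧ 0 < cP W ∧
    ∀ (q : ℕ) [NeZero q] (hco : Nat.Coprime q N) (χ : DirichletCharacter ℂ q) (hχ : χ.IsPrimitive)
      (r : ℕ) (hr : χ ^ (2 ^ r) = 1), ∃ (D : ℤ) (c : (ZMod q)ˣ → ℤ), Odd D ∧
      D * ∑ u : (ZMod q)ˣ, χ⁻¹ (u : ZMod q) * bv f (((u : ZMod q).val : ℚ) / q) =
        per W χ * ∑ u : (ZMod q)ˣ, χ (u : ZMod q) * (c u : ℂ) ∧
      ((0 < W.Δ → χ (-1) = 1) → (Odd (∑ u, c u) ↔ Odd s ∧ Cr W q)) := by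
  classical
  -- the sum over representatives as a sum over all units
  have hre : ∀ (q : ℕ) [NeZero q] (χ : DirichletCharacter ℂ q) (A : (ZMod q)ˣ → ℤ),
      ∑ u ∈ RR q, χ⁻¹ (u : ZMod q) * (A u : ℂ) = ∑ u : (ZMod q)ˣ, χ (u : ZMod q) *
        ((if u⁻¹ ∈ RR q then A u⁻¹ else 0 : ℤ) : ℂ) ∧
      ∑ u ∈ RR q, A u = ∑ u : (ZMod q)ˣ, (if u⁻¹ ∈ RR q then A u⁻¹ else 0 : ℤ) := by
    intro q _ χ A
    constructor
    · rw [← Equiv.sum_comp (Equiv.inv (ZMod q)ˣ), ← Finset.sum_filter_add_sum_filter_not univ (fun u => u ∈ RR q)]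
      have h1 : ∑ u ∈ univ.filter (fun u => ¬ u ∈ RR q), χ ((Equiv.inv (ZMod q)ˣ u : (ZMod q)ˣ) : ZMod q) *
          ((if (Equiv.inv (ZMod q)ˣ u)⁻¹ ∈ RR q then A (Equiv.inv (ZMod q)ˣ u)⁻¹ else 0 : ℤ) : ℂ) = 0 := by
        refine Finset.sum_eq_zero fun u hu => ?_
        have h2 := (Finset.mem_filter.1 hu).2
        rw [Equiv.inv_apply, inv_inv, if_neg h2]
        simp
      rw [h1, add_zero]
      refine Finset.sum_congr (by ext u; simp) fun u hu => ?_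
      rw [Equiv.inv_apply, inv_inv, if_pos (Finset.mem_filter.1 hu).2]
      congr 1
      rw [MulChar.inv_apply_eq_inv']
      have h3 : χ (u : ZMod q) * χ ((u⁻¹ : (ZMod q)ˣ) : ZMod q) = 1 := by
        rw [← map_mul, ← Units.val_mul, mul_inv_cancel, Units.val_one, map_one]
      exact inv_eq_of_mul_eq_one_right h3
    · rw [← Equiv.sum_comp (Equiv.inv (ZMod q)ˣ), ← Finset.sum_filter_add_sum_filter_not univ (fun u => u ∈ RR q)]
      have h1 : ∑ u ∈ univ.filter (fun u => ¬ u ∈ RR q),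
          (if (Equiv.inv (ZMod q)ˣ u)⁻¹ ∈ RR q then A (Equiv.inv (ZMod q)ˣ u)⁻¹ else 0 : ℤ) = 0 := by
        refine Finset.sum_eq_zero fun u hu => ?_
        have h2 := (Finset.mem_filter.1 hu).2
        rw [Equiv.inv_apply, inv_inv, if_neg h2]
      rw [h1, add_zero]
      refine Finset.sum_congr (by ext u; simp) fun u hu => ?_
      rw [Equiv.inv_apply, inv_inv, if_pos (Finset.mem_filter.1 hu).2]
  have hinvm : ∀ (q : ℕ) (χ : DirichletCharacter ℂ q), χ⁻¹ (-1) = 1 ↔ χ (-1) = 1 := by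
    intro q χ
    rw [MulChar.inv_apply_eq_inv', inv_eq_one]
  rcases lt_or_gt_of_ne hΔ with hneg | hpos
  · obtain ⟨Op, Om, cc, s, t, hP, h1, h2, hlN, hl2⟩ := data_neg hneg hfI Λ hg₂ hg₃ hman l hl hlΔ hlo
    have hOp := hP.Op_pos
    have hOm := hP.Om_pos
    refine ⟨s, t, hP.t_odd, ?_, by rw [h1]; positivity, by rw [h2]; positivity, ?_⟩
    · rw [hP.val, h1]
      push_cast
      ring
    intro q _ hco χ hχ r hr
    obtain ⟨j, q', hq, hj, hodd, hsq⟩ := cond_two χ hχ hr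
    obtain ⟨E, hE, hS⟩ := sum_all hfI q j q' hq hj hodd hsq hco
    have hqne : q ≠ 2 := by
      rintro rfl
      have h3 := Pool.Agent.K4H53.BSR.cond_mod4 χ
      have hc : χ.conductor = 2 := hχ
      rw [hc] at h3
      omega
    obtain ⟨D, A, B, hD, hA, hB, hV⟩ := val_charA hfI hP hl hlN hl2 hlo q hqne E (by
      rintro rfl
      rw [hE]
      refine ⟨fun l hl h => absurd (Nat.dvd_one.1 h) hl.ne_one, fun h => ?_⟩
      omega) hS
    have hV' := hV χ⁻¹ (Pool.Agent.W440.TW.inv_primitive χ hχ)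
    rw [hE] at hA hB
    by_cases hev : χ (-1) = 1
    · obtain ⟨e1, e2⟩ := hre q χ A
      refine ⟨D, fun u => if u⁻¹ ∈ RR q then A u⁻¹ else 0, hD, ?_, fun _ => ?_⟩
      · rw [hV', ← e1]
        unfold kapG per
        have h5 : χ⁻¹ (-1) = 1 := (hinvm q χ).2 hev
        simp only [h5, hev, if_true, h1]
        push_cast
        ring
      · rw [← e2, hA]
        exact Iff.rfl
    · obtain ⟨e1, e2⟩ := hre q χ B
      refine ⟨D, fun u => if u⁻¹ ∈ RR q then B u⁻¹ else 0, hD, ?_, fun _ => ?_⟩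
      · rw [hV', ← e1]
        unfold kapG per
        have h5 : ¬ χ⁻¹ (-1) = 1 := fun h => hev ((hinvm q χ).1 h)
        simp only [h5, hev, if_false, h1, h2]
        have hOp' : (Op : ℂ) ≠ 0 := by exact_mod_cast hOp.ne'
        push_cast
        field_simp
        ring
      · rw [← e2, hB]
        exact Iff.rfl
  · obtain ⟨Op, Om, cc, s, t, hP, h1, h2, hlN, hl2⟩ := data_pos hpos hfI Λ hg₂ hg₃ hman l hl hlΔ hlo
    have hOp := hP.Op_pos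
    have hOm := hP.Om_pos
    refine ⟨s, t, hP.t_odd, ?_, by rw [h1]; positivity, by rw [h2]; positivity, ?_⟩
    · rw [hP.val, h1]
      push_cast
      ring
    intro q _ hco χ hχ r hr
    obtain ⟨j, q', hq, hj, hodd, hsq⟩ := cond_two χ hχ hr
    obtain ⟨E, hE, hS⟩ := sum_all hfI q j q' hq hj hodd hsq hco
    have hqne : q ≠ 2 := by
      rintro rfl
      have h3 := Pool.Agent.K4H53.BSR.cond_mod4 χ
      have hc : χ.conductor = 2 := hχ
      rw [hc] at h3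
      omega
    obtain ⟨D, A, B, hD, hA, hV⟩ := val_charP hfI hP hl hlN hl2 hlo q hqne E (by
      rintro rfl
      rw [hE]
      refine ⟨fun l hl h => absurd (Nat.dvd_one.1 h) hl.ne_one, fun h => ?_⟩
      omega) hS
    have hV' := hV χ⁻¹ (Pool.Agent.W440.TW.inv_primitive χ hχ)
    rw [hE] at hA
    by_cases hev : χ (-1) = 1
    · obtain ⟨e1, e2⟩ := hre q χ A
      refine ⟨D, fun u => if u⁻¹ ∈ RR q then A u⁻¹ else 0, hD, ?_, fun _ => ?_⟩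
      · rw [hV', ← e1]
        unfold kapG per
        have h5 : χ⁻¹ (-1) = 1 := (hinvm q χ).2 hev
        simp only [h5, hev, if_true, h1]
        push_cast
        ring
      · rw [← e2, hA]
        exact Iff.rfl
    · obtain ⟨e1, e2⟩ := hre q χ (fun u => 2 * B u)
      refine ⟨D, fun u => if u⁻¹ ∈ RR q then 2 * B u⁻¹ else 0, hD, ?_, fun h => absurd (h hpos) hev⟩
      rw [hV', ← e1]
      unfold kapG per
      have h5 : ¬ χ⁻¹ (-1) = 1 := fun h => hev ((hinvm q χ).1 h)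
      simp only [h5, hev, if_false, h1, h2]
      have hOp' : (Op : ℂ) ≠ 0 := by exact_mod_cast hOp.ne'
      have h6 : ∑ u ∈ RR q, χ⁻¹ (u : ZMod q) * ((2 * B u : ℤ) : ℂ) =
          2 * ∑ u ∈ RR q, χ⁻¹ (u : ZMod q) * ((B u : ℤ) : ℂ) := by
        rw [Finset.mul_sum]
        refine Finset.sum_congr rfl fun u _ => ?_
        push_cast
        ring
      rw [h6]
      push_cast
      field_simp
      try ring

end Pool.Agent.K4H53.DP
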