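import Pool.Agent.K4H53.BSR.Sum4
import Pool.Agent.K4H53.BSR.Val4

/-!
# The sums of the modular symbols with denominator `2^j q`, `q` odd and squarefree
-/

set_option autoImplicit false
set_option linter.all false

open Filter Topology MeasureTheory Set UpperHalfPlane MatrixGroups CongruenceSubgroup Finset

namespace Pool.Agent.K4H53.DP

open Pool.Agent.K4H53.BSR (sum_units cop_add sum_bv4 Eodd4)
open Pool.Agent.Y18.BSD (co bv PG HRel bv_tendsto bv_hecke bv_period bv_mem psi psi_prod dd jc FF den_iff)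
open Pool.Agent.TH940 (prim Fr)
open Pool.Agent.Y702.L (RR mem_RR sum_char_units)
open Pool.Agent.Y702.G (IsForm kapG bv_conj bv_val sum_bv pts)

variable {W : WeierstrassCurve ℤ} {N : ℕ} [NeZero N]
  {f : CuspForm (Gamma0 N : Subgroup (GL (Fin 2) ℝ)) 2}

/-- the sum with denominator `4q`, `q` even -/
lemma sum_bv8 (hf : IsForm W N f) (q : ℕ) [NeZero q] [NeZero (2 * q)] [NeZero (4 * q)]
    (hev : Even q) (hN : Odd N) :
    ∑ u : (ZMod (4 * q))ˣ, bv f (((u : ZMod (4 * q)).val : ℚ) / ((4 * q : ℕ) : ℚ)) =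
      co f 2 * ∑ u : (ZMod (2 * q))ˣ, bv f (((u : ZMod (2 * q)).val : ℚ) / ((2 * q : ℕ) : ℚ)) -
        2 * ∑ u : (ZMod q)ˣ, bv f (((u : ZMod q).val : ℚ) / q) := by
  obtain ⟨w, -, hfr⟩ := hf.fr
  have hq0 : (q : ℚ) ≠ 0 := Nat.cast_ne_zero.2 (NeZero.ne q)
  rw [sum_units (4 * q) (fun a => bv f ((a : ℚ) / ((4 * q : ℕ) : ℚ))),
    sum_units (2 * q) (fun a => bv f ((a : ℚ) / ((2 * q : ℕ) : ℚ))),
    sum_units q (fun a => bv f ((a : ℚ) / (q : ℚ)))]
  have hhecke : ∀ a : ℕ, co f 2 * bv f ((a : ℚ) / ((2 * q : ℕ) : ℚ)) =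
      bv f ((a : ℚ) / q) + (bv f ((a : ℚ) / ((4 * q : ℕ) : ℚ)) +
        bv f (((2 * q + a : ℕ) : ℚ) / ((4 * q : ℕ) : ℚ))) := by
    intro a
    have h1 := bv_hecke hf.hrel hfr Nat.prime_two (fun h => by
      obtain ⟨t, ht⟩ := hN
      omega) ((a : ℚ) / ((2 * q : ℕ) : ℚ))
    rw [Finset.sum_range_succ, Finset.sum_range_one] at h1
    rw [h1]
    push_cast
    have e1 : (2 : ℚ) * ((a : ℚ) / (2 * q)) = (a : ℚ) / q := by field_simp
    have e2 : ((a : ℚ) / (2 * q) + 0) / 2 = (a : ℚ) / (4 * q) := by field_simp; norm_num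
    have e3 : ((a : ℚ) / (2 * q) + 1) / 2 = (2 * q + a : ℚ) / (4 * q) := by
      field_simp; ring
    rw [e1, e2, e3]
  have hc4 : ∀ a : ℕ, Nat.Coprime a (4 * q) ↔ Nat.Coprime a (2 * q) := by
    intro a
    rw [Nat.coprime_mul_iff_right, Nat.coprime_mul_iff_right,
      show 4 = 2 ^ 2 by norm_num, Nat.coprime_pow_right_iff (by norm_num)]
  have e4 : 4 * q = 2 * q + 2 * q := by ring
  have hA : ∑ a ∈ range (4 * q), (if Nat.Coprime a (4 * q) then bv f ((a : ℚ) / ((4 * q : ℕ) : ℚ))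
      else 0) = ∑ a ∈ range (2 * q), (if Nat.Coprime a (2 * q) then
        (bv f ((a : ℚ) / ((4 * q : ℕ) : ℚ)) + bv f (((2 * q + a : ℕ) : ℚ) / ((4 * q : ℕ) : ℚ)))
        else 0) := by
    have h1 : range (4 * q) = range (2 * q + 2 * q) := by rw [e4]
    rw [h1, Finset.sum_range_add, ← Finset.sum_add_distrib]
    refine Finset.sum_congr rfl fun a _ => ?_
    simp only [hc4]
    have h2 : Nat.Coprime (2 * q + a) (2 * q) ↔ Nat.Coprime a (2 * q) := cop_add dvd_rfl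
    by_cases h3 : Nat.Coprime a (2 * q)
    · rw [if_pos h3, if_pos (h2.2 h3), if_pos h3]
    · rw [if_neg h3, if_neg (fun h => h3 (h2.1 h)), if_neg h3, add_zero]
  have hB : ∑ a ∈ range (2 * q), (if Nat.Coprime a (2 * q) then bv f ((a : ℚ) / (q : ℚ)) else 0) =
      2 * ∑ a ∈ range q, (if Nat.Coprime a q then bv f ((a : ℚ) / (q : ℚ)) else 0) := by
    have h1 : range (2 * q) = range (q + q) := by rw [two_mul]
    rw [h1, Finset.sum_range_add, ← Finset.sum_add_distrib, Finset.mul_sum]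
    refine Finset.sum_congr rfl fun a _ => ?_
    have h2 : ∀ b : ℕ, Nat.Coprime b (2 * q) ↔ Nat.Coprime b q := by
      intro b
      rw [Nat.coprime_mul_iff_right]
      refine ⟨fun h => h.2, fun h => ⟨?_, h⟩⟩
      exact Nat.Coprime.coprime_dvd_right (even_iff_two_dvd.1 hev) h
    have h4 : bv f (((q + a : ℕ) : ℚ) / q) = bv f ((a : ℚ) / q) := by
      have e : ((q + a : ℕ) : ℚ) / q = (a : ℚ) / q + 1 := by
        push_cast
        field_simp
        ring
      rw [e, bv_period]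
    have h6 : Nat.Coprime (q + a) (2 * q) ↔ Nat.Coprime a q := by
      rw [h2, cop_add (dvd_refl q)]
    rw [h4]
    by_cases h5 : Nat.Coprime a q
    · rw [if_pos h5, if_pos ((h2 a).2 h5), if_pos (h6.2 h5)]
      ring
    · rw [if_neg h5, if_neg (fun h => h5 ((h2 a).1 h)), if_neg (fun h => h5 (h6.1 h)), add_zero,
        mul_zero]
  rw [hA, ← hB, Finset.mul_sum, ← Finset.sum_sub_distrib]
  refine Finset.sum_congr rfl fun a _ => ?_
  by_cases h3 : Nat.Coprime a (2 * q)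
  · rw [if_pos h3, if_pos h3, if_pos h3, hhecke a]
    ring
  · rw [if_neg h3, if_neg h3, if_neg h3, mul_zero, sub_zero]


/-- the sum of all symbols with denominator `q` -/
noncomputable def SS (f : CuspForm (Gamma0 N : Subgroup (GL (Fin 2) ℝ)) 2) (q : ℕ) : ℂ :=
  ∑ a ∈ range q, if Nat.Coprime a q then bv f ((a : ℚ) / q) else 0

lemma SS_eq (q : ℕ) [NeZero q] : SS f q = ∑ u : (ZMod q)ˣ, bv f (((u : ZMod q).val : ℚ) / q) :=
  (sum_units q (fun a => bv f ((a : ℚ) / (q : ℚ)))).symm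

lemma prodI (hf : IsForm W N f) (m : ℕ) : ∏ l ∈ m.primeFactors, (co f l - 2) =
      ((∏ l ∈ m.primeFactors, (((l : ℤ) - pts W (ZMod l)) - 2) : ℤ) : ℂ) := by
  push_cast
  refine Finset.prod_congr rfl fun l hl => ?_
  rw [hf.coef l (Nat.prime_of_mem_primeFactors hl)]

/-- the sums with denominators `2^j q'` -/
theorem sum_pow (hf : IsForm W N f) (q' : ℕ) (hodd : Odd q') (hsq : Squarefree q')
    (hco : Nat.Coprime q' N) (hN : Odd N) :
    ∀ j : ℕ, ∃ E E1 : ℤ, SS f (2 ^ (j + 2) * q') = E * bv f 0 ∧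
      SS f (2 ^ (j + 1) * q') = E1 * bv f 0 ∧
      (j = 0 → (Odd E ↔ (∀ l : ℕ, l.Prime → l ∣ q' → Odd ((l : ℤ) - pts W (ZMod l))) ∧
        Even (((2 : ℕ) : ℤ) - pts W (ZMod 2)))) ∧
      (j ≠ 0 → Even E) ∧ (Odd (((2 : ℕ) : ℤ) - pts W (ZMod 2)) → Even E) := by
  have hq'0 : q' ≠ 0 := hsq.ne_zero
  haveI : NeZero q' := ⟨hq'0⟩
  haveI : NeZero (2 * q') := ⟨by omega⟩
  haveI : NeZero (4 * q') := ⟨by omega⟩
  have hc2' : co f 2 = (((((2 : ℕ) : ℤ) - pts W (ZMod 2) : ℤ)) : ℂ) := by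
    rw [hf.coef 2 Nat.prime_two]
    push_cast
    rfl
  set a : ℤ := (((2 : ℕ) : ℤ) - pts W (ZMod 2)) with ha
  have hc2 : Nat.Coprime 2 q' := Nat.coprime_two_left.2 hodd
  have hco2 : Nat.Coprime (2 * q') N :=
    Nat.Coprime.mul_left (Nat.coprime_two_left.2 hN) hco
  have hsq2 : Squarefree (2 * q') := by
    rw [Nat.squarefree_mul hc2]
    exact ⟨Nat.prime_two.squarefree, hsq⟩
  have hpf : (2 * q').primeFactors = insert 2 q'.primeFactors := by
    rw [Nat.primeFactors_mul (by norm_num) hq'0, Nat.Prime.primeFactors Nat.prime_two]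
    rfl
  have h2n : 2 ∉ q'.primeFactors := by
    intro h
    have := Nat.dvd_of_mem_primeFactors h
    obtain ⟨t, ht⟩ := hodd
    omega
  intro j
  induction j with
  | zero =>
    have h1 := sum_bv4 hf q' hodd hN
    have h1' := sum_bv hf (2 * q') hsq2 hco2
    rw [sum_bv hf q' hsq hco, h1', prodI hf, prodI hf] at h1
    rw [prodI hf] at h1'
    rw [hpf, Finset.prod_insert h2n] at h1 h1'
    set E : ℤ := ∏ l ∈ q'.primeFactors, (((l : ℤ) - pts W (ZMod l)) - 2) with hE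
    have haa : (((2 : ℕ) : ℤ) - pts W (ZMod 2)) = a := rfl
    rw [haa] at h1 h1'
    refine ⟨(a * (a - 2) - 1) * E, (a - 2) * E, ?_, ?_, fun _ => ?_, fun h => absurd rfl h, ?_⟩
    · have e : 2 ^ (0 + 2) * q' = 4 * q' := by norm_num
      rw [e, SS_eq, h1, hc2']
      push_cast
      ring
    · have e : 2 ^ (0 + 1) * q' = 2 * q' := by norm_num
      rw [e, SS_eq, h1']
    · rw [Int.odd_mul, hE, Eodd4 q']
      constructor
      · rintro ⟨h2, h3⟩
        refine ⟨h3, ?_⟩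
        by_contra h4
        rw [Int.not_even_iff_odd] at h4
        have h5 : Even (a * (a - 2) - 1) := (h4.mul (h4.sub_even even_two)).sub_odd odd_one
        exact (Int.not_odd_iff_even.2 h5) h2
      · rintro ⟨h2, h3⟩
        exact ⟨(h3.mul_right _).sub_odd odd_one, h2⟩
    · intro h4
      exact ((h4.mul (h4.sub_even even_two)).sub_odd odd_one).mul_right _
  | succ j ih =>
    obtain ⟨E, E1, h1, h2, h3, h4, h5⟩ := ih
    haveI : NeZero (2 ^ (j + 1) * q') := ⟨mul_ne_zero (by positivity) hq'0⟩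
    haveI : NeZero (2 * (2 ^ (j + 1) * q')) := ⟨mul_ne_zero two_ne_zero (NeZero.ne _)⟩
    haveI : NeZero (4 * (2 ^ (j + 1) * q')) := ⟨mul_ne_zero four_ne_zero (NeZero.ne _)⟩
    have h6 := sum_bv8 hf (2 ^ (j + 1) * q') (by
      rw [even_iff_two_dvd]
      exact ⟨2 ^ j * q', by ring⟩) hN
    rw [← SS_eq, ← SS_eq, ← SS_eq] at h6
    have e1 : 4 * (2 ^ (j + 1) * q') = 2 ^ (j + 1 + 2) * q' := by ring
    have e2 : 2 * (2 ^ (j + 1) * q') = 2 ^ (j + 2) * q' := by ring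
    rw [e1, e2, h1, h2, hc2'] at h6
    have hev : Even (a * E - 2 * E1) := by
      refine Even.sub ?_ (even_two.mul_right _)
      rcases Int.even_or_odd a with h7 | h7
      · exact h7.mul_right _
      · exact (h5 h7).mul_left _
    refine ⟨a * E - 2 * E1, E, ?_, ?_, fun h => absurd h (Nat.succ_ne_zero j), fun _ => hev,
      fun _ => hev⟩
    · rw [h6]
      push_cast
      ring
    · exact h1

/-- the parity of the total -/
theorem sum_all (hf : IsForm W N f) (q : ℕ) [NeZero q] (j q' : ℕ) (hq : q = 2 ^ j * q')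
    (hj : j ≠ 1) (hodd : Odd q') (hsq : Squarefree q') (hco : Nat.Coprime q N) :
    ∃ E : ℤ, (Odd E ↔ (∀ l : ℕ, l.Prime → l ∣ q → l ≠ 2 → Odd ((l : ℤ) - pts W (ZMod l))) ∧
        (2 ∣ q → ¬ 8 ∣ q ∧ Even ((2 : ℤ) - pts W (ZMod 2)))) ∧
      ∑ u : (ZMod q)ˣ, bv f (((u : ZMod q).val : ℚ) / q) = (E : ℂ) * bv f 0 := by
  have hl2 : ∀ l : ℕ, l.Prime → l ≠ 2 → (l ∣ q ↔ l ∣ q') := by
    intro l hl h2
    constructor
    · intro h
      rw [hq] at h
      rcases (Nat.Prime.dvd_mul hl).1 h with h3 | h3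
      · exact absurd ((Nat.prime_dvd_prime_iff_eq hl Nat.prime_two).1 (hl.dvd_of_dvd_pow h3)) h2
      · exact h3
    · intro h
      rw [hq]
      exact Dvd.dvd.mul_left h _
  have h2q' : ¬ 2 ∣ q' := by
    obtain ⟨t, ht⟩ := hodd
    omega
  have hall : (∀ l : ℕ, l.Prime → l ∣ q → l ≠ 2 → Odd ((l : ℤ) - pts W (ZMod l))) ↔
      ∀ l : ℕ, l.Prime → l ∣ q' → Odd ((l : ℤ) - pts W (ZMod l)) := by
    constructor
    · intro h l hl hlq
      have h2 : l ≠ 2 := by rintro rfl; exact h2q' hlq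
      exact h l hl ((hl2 l hl h2).2 hlq) h2
    · intro h l hl hlq h2
      exact h l hl ((hl2 l hl h2).1 hlq)
  rw [hall]
  rcases Nat.eq_zero_or_pos j with hj0 | hj0
  · subst hj0
    rw [pow_zero, one_mul] at hq
    subst hq
    refine ⟨∏ l ∈ q.primeFactors, (((l : ℤ) - pts W (ZMod l)) - 2), ?_, ?_⟩
    · rw [Eodd4 q]
      exact ⟨fun h => ⟨h, fun h2 => absurd h2 h2q'⟩, fun h => h.1⟩
    · rw [sum_bv hf q hsq hco, prodI hf]
  · obtain ⟨i, rfl⟩ : ∃ i, j = i + 2 := ⟨j - 2, by omega⟩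
    have h2q : 2 ∣ q := by
      rw [hq]
      exact ⟨2 ^ (i + 1) * q', by ring⟩
    have hN : Odd N := Nat.coprime_two_left.1 (Nat.Coprime.coprime_dvd_left h2q hco)
    have hco' : Nat.Coprime q' N := Nat.Coprime.coprime_dvd_left (by rw [hq]; exact dvd_mul_left _ _) hco
    obtain ⟨E, E1, h1, h2, h3, h4, h5⟩ := sum_pow hf q' hodd hsq hco' hN i
    refine ⟨E, ?_, ?_⟩
    · rcases Nat.eq_zero_or_pos i with hi | hi
      · subst hi
        rw [h3 rfl]
        have h8 : ¬ 8 ∣ q := by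
          rw [hq]
          rintro ⟨t, ht⟩
          have : q' = 2 * t := by omega
          exact h2q' ⟨t, this⟩
        refine and_congr_right fun _ => ?_
        exact ⟨fun h _ => ⟨h8, h⟩, fun h => (h h2q).2⟩
      · have h8 : 8 ∣ q := by
          obtain ⟨k, rfl⟩ : ∃ k, i = k + 1 := ⟨i - 1, by omega⟩
          rw [hq]
          exact ⟨2 ^ k * q', by ring⟩
        constructor
        · intro h
          exact absurd h (Int.not_odd_iff_even.2 (h4 hi.ne'))
        · rintro ⟨-, h⟩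
          exact absurd h8 (h h2q).1
    · rw [← h1, ← hq, SS_eq]

end Pool.Agent.K4H53.DP
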